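import Mathlib
import Pool.Agent.N695.CY.Dense

set_option autoImplicit false

/-!
# Points over all cyclotomic fields that are sparse in some rational base are not Zariski dense

Let `X` be an irreducible closed subvariety of projective `n`-space over `ℂ` with homogeneous
prime ideal generated by the forms in `FF`, and suppose that `X` is not unirational over `ℂ`, for
example a variety of general type of positive dimension.  Fix vectors `u_1, ..., u_p`, a number of
terms `r` and a bound `B`.  There is one form `G` that does not vanish on `X` and vanishes at all
the points of `X` of the form `[a_1 u_1 + ... + a_p u_p]` where, for some rational number `b`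
different from `0`, `1`, `-1`, every `a_i` is a sum of `r` terms `b ^ m * x`, with `m` an integer
and `x` a cyclotomic integer of any conductor with mean square of conjugates at most `B`.  All
bases `b` and all conductors are taken together.

Method: the solutions of a polynomial system in powers of one rational number times roots of unity
lie on finitely many cosets of subtori contained in the variety, uniformly in the rational number
(`structure_thm`); the image of such a coset in `X` is unirational, hence not dense in `X`.
-/

namespace Pool.Agent.Results.MP_2ae8fe_ag.CyclotomicSparseNotDense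

open MvPolynomial Pool.Agent.N695.CY

theorem result (n : ℕ) (FF : Set (MvPolynomial (Fin (n + 1)) ℂ))
    (hom : ∀ F ∈ FF, ∃ e, F.IsHomogeneous e) (hprime : (Ideal.span FF).IsPrime)
    (hnu : ¬ UnirationalC (Ideal.span FF))
    (p : ℕ) (u : Fin p → Fin (n + 1) → ℂ) (r : ℕ) (B : ℝ) :
    ∃ G : MvPolynomial (Fin (n + 1)) ℂ, (∃ e, G.IsHomogeneous e) ∧ G ∉ Ideal.span FF ∧
      ∀ (b : ℚ) (a : Fin p → ℂ), b ≠ 0 → |b| ≠ 1 → (∀ i, SparseCyc b r B (a i)) →
        (∀ F ∈ FF, eval (∑ i, a i • u i) F = 0) → eval (∑ i, a i • u i) G = 0 :=
  not_dense_cyc FF hom hprime hnu p u r B

end Pool.Agent.Results.MP_2ae8fe_ag.CyclotomicSparseNotDense
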